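import Pool.Agent.H289R3.FQ.Tasks

set_option autoImplicit false
open Set Topology Filter
open scoped ContDiff

namespace Pool.Agent.H672R3.FQ

open Pool.Agent.H289R3.FQ

theorem taskFlowBox : TaskFlowBox := by
  intro V F _ _ _ _ _ _ hdim X Φ π x₀ hX hΦ hπ hx₀ hnf hπs hsurj
  -- the flow as a function of two variables
  set Ψ : ℝ × V → V := fun p => Φ p.1 p.2 with hΨ
  have hΨs : ∀ (t : ℝ) (x : V), x ∈ X → ContDiffAt ℝ ∞ Ψ (t, x) := fun t x hx =>
    hΦ.smooth.contDiffAt ((isOpen_univ.prod hX).mem_nhds ⟨mem_univ _, hx⟩)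
  have hne : (∞ : WithTop ℕ∞) ≠ 0 := by simp
  have hΨd : ∀ (t : ℝ) (x : V), x ∈ X → HasStrictFDerivAt Ψ (fderiv ℝ Ψ (t, x)) (t, x) :=
    fun t x hx => (hΨs t x hx).hasStrictFDerivAt hne
  set v : V := fderiv ℝ Ψ (0, x₀) (1, 0) with hv
  have hzero : Φ 0 x₀ = x₀ := hΦ.zero x₀ hx₀
  -- derivative at time 0
  have hd0 : HasDerivAt (fun t => Φ t x₀) v 0 := by
    have h1 : HasDerivAt (fun t : ℝ => (t, x₀)) ((1 : ℝ), (0 : V)) 0 :=
      (hasDerivAt_id 0).prodMk (hasDerivAt_const 0 x₀)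
    exact (hΨd 0 x₀ hx₀).hasFDerivAt.comp_hasDerivAt (0 : ℝ) h1
  -- the velocity is not zero
  have hv0 : v ≠ 0 := by
    intro hv0
    rw [hv0] at hd0
    have hd : ∀ t : ℝ, HasDerivAt (fun s => Φ s x₀) 0 t := by
      intro t
      have h1 : HasDerivAt (fun h : ℝ => Ψ (t, Φ h x₀)) 0 0 := by
        have h2 : HasDerivAt (fun h : ℝ => (t, Φ h x₀)) ((0 : ℝ), (0 : V)) 0 :=
          (hasDerivAt_const 0 t).prodMk hd0
        have h3 := (hΨd t (Φ 0 x₀) (by rw [hzero]; exact hx₀)).hasFDerivAt.comp_hasDerivAt (0 : ℝ) h2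
        have h4 : (fderiv ℝ Ψ (t, Φ 0 x₀)) ((0 : ℝ), (0 : V)) = 0 :=
          (fderiv ℝ Ψ (t, Φ 0 x₀)).map_zero
        rw [h4] at h3
        exact h3
      have h5 : (fun s => Φ s x₀) = fun s => (fun h : ℝ => Ψ (t, Φ h x₀)) (s - t) := by
        funext s
        simp only [hΨ]
        rw [← hΦ.add t (s - t) x₀ hx₀]
        congr 1
        ring
      rw [h5]
      exact HasDerivAt.comp_sub_const (f := fun h : ℝ => Ψ (t, Φ h x₀)) t t
        (by rw [sub_self]; exact h1)
    obtain ⟨t, ht⟩ := hnf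
    apply ht
    have h6 := is_const_of_deriv_eq_zero (fun s => (hd s).differentiableAt)
      (fun s => (hd s).deriv) t 0
    rw [h6, hzero]
  -- the derivative of `π`
  set P := fderiv ℝ π x₀ with hP
  have hPd : HasStrictFDerivAt π P x₀ := hπs.hasStrictFDerivAt hne
  have hPv : P v = 0 := by
    have h1 : HasDerivAt (fun t => π (Φ t x₀)) (P v) 0 := by
      have h2 : HasFDerivAt π P (Φ 0 x₀) := by rw [hzero]; exact hPd.hasFDerivAt
      exact h2.comp_hasDerivAt (0 : ℝ) hd0
    have h3 : (fun t => π (Φ t x₀)) = fun _ => π x₀ := funext fun t => hπ x₀ hx₀ t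
    rw [h3] at h1
    exact h1.unique (hasDerivAt_const 0 (π x₀))
  obtain ⟨A, hA⟩ := P.exists_rightInverse_of_surjective (LinearMap.range_eq_top.2 hsurj)
  have hPA : ∀ y, P (A y) = y := fun y => by
    have := congrArg (fun g : F →L[ℝ] F => g y) hA
    simpa using this
  -- the linear map `(t, y) ↦ t v + A y`
  let L : (ℝ × F) →ₗ[ℝ] V :=
    { toFun := fun p => p.1 • v + A p.2
      map_add' := by intro p q; simp only [Prod.fst_add, Prod.snd_add, add_smul, map_add]; abel
      map_smul' := by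
        intro r p
        simp only [Prod.smul_fst, Prod.smul_snd, smul_eq_mul, map_smul, RingHom.id_apply, smul_add,
          mul_smul] }
  have hLinj : Function.Injective L := by
    rw [← LinearMap.ker_eq_bot, LinearMap.ker_eq_bot']
    rintro ⟨t, y⟩ h
    have h0 : t • v + A y = 0 := h
    have h1 : P (t • v + A y) = 0 := by rw [h0, map_zero]
    rw [map_add, map_smul, hPv, smul_zero, zero_add, hPA] at h1
    rw [h1, map_zero, add_zero] at h0
    rcases smul_eq_zero.1 h0 with h2 | h2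
    · rw [h2, h1]; rfl
    · exact absurd h2 hv0
  have hfr : Module.finrank ℝ (ℝ × F) = Module.finrank ℝ V := by
    rw [Module.finrank_prod, Module.finrank_self, hdim, add_comm]
  let Le : (ℝ × F) ≃L[ℝ] V := (L.linearEquivOfInjective hLinj hfr).toContinuousLinearEquiv
  have hLe : ∀ p : ℝ × F, Le p = p.1 • v + A p.2 := fun p => rfl
  -- the map `G`
  let G : ℝ × F → V := fun p => Φ p.1 (x₀ + A p.2)
  have hG0 : G (0, 0) = x₀ := by simp only [G, map_zero, add_zero]; exact hzero
  have hGd : HasStrictFDerivAt G (Le : (ℝ × F) →L[ℝ] V) (0, 0) := by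
    have h1 : HasStrictFDerivAt (fun p : ℝ × F => (p.1, x₀ + A p.2))
        ((ContinuousLinearMap.fst ℝ ℝ F).prod (A.comp (ContinuousLinearMap.snd ℝ ℝ F))) (0, 0) := by
      apply HasStrictFDerivAt.prodMk
      · exact hasStrictFDerivAt_fst
      · apply HasStrictFDerivAt.const_add
        exact A.hasStrictFDerivAt.comp _ hasStrictFDerivAt_snd
    have h2 : HasStrictFDerivAt Ψ (fderiv ℝ Ψ (0, x₀))
        ((fun p : ℝ × F => (p.1, x₀ + A p.2)) (0, 0)) := by
      simp only [map_zero, add_zero]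
      exact hΨd 0 x₀ hx₀
    have h3 := h2.comp (0, 0) h1
    have h4 : (fderiv ℝ Ψ (0, x₀)).comp ((ContinuousLinearMap.fst ℝ ℝ F).prod
        (A.comp (ContinuousLinearMap.snd ℝ ℝ F))) = (Le : (ℝ × F) →L[ℝ] V) := by
      -- the derivative in the space variable is the identity
      have h5 : ∀ z : V, fderiv ℝ Ψ (0, x₀) (0, z) = z := by
        have h6 : HasFDerivAt (fun x : V => Ψ (0, x))
            ((fderiv ℝ Ψ (0, x₀)).comp (ContinuousLinearMap.inr ℝ ℝ V)) x₀ := by
          have h7 : HasFDerivAt (fun x : V => ((0 : ℝ), x)) (ContinuousLinearMap.inr ℝ ℝ V) x₀ :=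
            hasFDerivAt_prodMk_right 0 x₀
          exact (hΨd 0 x₀ hx₀).hasFDerivAt.comp x₀ h7
        have h8 : HasFDerivAt (fun x : V => Ψ (0, x)) (ContinuousLinearMap.id ℝ V) x₀ := by
          apply (hasFDerivAt_id x₀).congr_of_eventuallyEq
          filter_upwards [hX.mem_nhds hx₀] with x hx
          exact hΦ.zero x hx
        intro z
        have h9 := h6.unique h8
        have h10 := congrArg (fun g : V →L[ℝ] V => g z) h9
        simpa using h10
      refine ContinuousLinearMap.ext fun p => ?_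
      obtain ⟨t, y⟩ := p
      have h6 : fderiv ℝ Ψ (0, x₀) (t, A y) = t • v + A y := by
        have h7 : ((t, A y) : ℝ × V) = t • ((1 : ℝ), (0 : V)) + (0, A y) := by simp
        rw [h7, map_add, map_smul, h5]
      exact h6
    rw [h4] at h3
    exact h3
  have hGn : map G (𝓝 (0, 0)) = 𝓝 x₀ := by
    rw [hGd.map_nhds_eq_of_equiv, hG0]
  -- the map `k`
  let k : F → F := fun y => π (x₀ + A y)
  have hkd : HasStrictFDerivAt k ((ContinuousLinearEquiv.refl ℝ F : F ≃L[ℝ] F) : F →L[ℝ] F) 0 := by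
    have h1 : HasStrictFDerivAt (fun y : F => x₀ + A y) A 0 :=
      (A.hasStrictFDerivAt (x := (0 : F))).const_add x₀
    have h2 : HasStrictFDerivAt π P ((fun y : F => x₀ + A y) 0) := by
      simp only [map_zero, add_zero]; exact hPd
    have h3 := h2.comp (0 : F) h1
    rw [hA] at h3
    exact h3
  set K := hkd.toOpenPartialHomeomorph k with hK
  have hKc : ∀ y, K y = k y := fun y => rfl
  have hK0 : (0 : F) ∈ K.source := hkd.mem_toOpenPartialHomeomorph_source
  have hk0 : k 0 = π x₀ := by simp only [k, map_zero, add_zero]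
  let Y : Set F := {y | x₀ + A y ∈ X}
  have hY : IsOpen Y := hX.preimage (by fun_prop)
  have hY0 : (0 : F) ∈ Y := by
    show x₀ + A 0 ∈ X
    rw [map_zero, add_zero]; exact hx₀
  refine ⟨fun m => x₀ + A (K.symm m), K.target ∩ K.symm ⁻¹' Y, ?_, ?_, ?_, ?_, ?_, ?_⟩
  · exact K.symm.isOpen_inter_preimage hY
  · rw [← hk0]
    refine ⟨K.map_source hK0, ?_⟩
    show K.symm (K 0) ∈ Y
    rw [K.left_inv hK0]; exact hY0
  · have h1 : ContinuousOn K.symm (K.target ∩ K.symm ⁻¹' Y) :=
      K.continuousOn_symm.mono inter_subset_left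
    exact continuousOn_const.add (A.continuous.comp_continuousOn h1)
  · rintro m ⟨hm1, hm2⟩
    refine ⟨hm2, ?_⟩
    show K (K.symm m) = m
    exact K.right_inv hm1
  · show x₀ + A (K.symm (π x₀)) = x₀
    rw [← hk0]
    have h1 : K.symm (k 0) = 0 := K.left_inv hK0
    rw [h1, map_zero, add_zero]
  · intro ε hε
    let N : Set (ℝ × F) := {p | |p.1| < ε} ∩ (Prod.snd ⁻¹' (K.source ∩ Y))
    have hN : N ∈ 𝓝 ((0 : ℝ), (0 : F)) := by
      apply IsOpen.mem_nhds
      · exact (isOpen_lt (by fun_prop) continuous_const).inter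
          ((K.open_source.inter hY).preimage continuous_snd)
      · exact ⟨by simpa using hε, hK0, hY0⟩
    refine ⟨G '' N, ?_, ?_⟩
    · rw [← hGn]
      exact image_mem_map hN
    · rintro _ ⟨⟨t, y⟩, ⟨ht, hy1, hy2⟩, rfl⟩
      have h1 : π (G (t, y)) = k y := hπ _ hy2 t
      have h2 : K.symm (k y) = y := K.left_inv hy1
      refine ⟨?_, t, ht, ?_⟩
      · rw [h1]
        refine ⟨K.map_source hy1, ?_⟩
        show K.symm (k y) ∈ Y
        rw [h2]; exact hy2
      · show G (t, y) = Φ t (x₀ + A (K.symm (π (G (t, y)))))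
        rw [h1, h2]

end Pool.Agent.H672R3.FQ
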