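import Pool.Agent.H289R3.FQ.Tasks

set_option autoImplicit false

namespace Pool.Agent.H672R3.FQ

open Pool.Agent.H289R3.FQ

lemma shift_sum {G : Type} [AddCommGroup G] [Fintype G] (F : G → ℝ) (u : G) :
    ∑ x, F (x + u) = ∑ x, F x :=
  Equiv.sum_comp (Equiv.addRight u) F

lemma T_sum {G : Type} [AddCommGroup G] [Fintype G] (a a' β : G → ℝ) (u v : G) :
    ∑ x, ((a' (x + u) - a' x) - (a (x + v) - a x)) * β (x + u + v) =
      ∑ x, (a' x * (β (x + v) - β (x + v + u)) - a x * (β (x + u) - β (x + u + v))) := by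
  have h1 : ∑ x, a' (x + u) * β (x + u + v) = ∑ x, a' x * β (x + v) :=
    shift_sum (fun x => a' x * β (x + v)) u
  have h2 : ∑ x, a (x + v) * β (x + u + v) = ∑ x, a x * β (x + u) := by
    rw [← shift_sum (fun x => a x * β (x + u)) v]
    refine Finset.sum_congr rfl fun x _ => ?_
    rw [add_right_comm]
  have h3 : ∀ x, β (x + v + u) = β (x + u + v) := fun x => by rw [add_right_comm]
  calc ∑ x, ((a' (x + u) - a' x) - (a (x + v) - a x)) * β (x + u + v)
      = ∑ x, a' (x + u) * β (x + u + v) - ∑ x, a (x + v) * β (x + u + v) +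
        ∑ x, (a x - a' x) * β (x + u + v) := by
        rw [← Finset.sum_sub_distrib, ← Finset.sum_add_distrib]
        exact Finset.sum_congr rfl fun x _ => by ring
    _ = _ := by
        rw [h1, h2, ← Finset.sum_sub_distrib, ← Finset.sum_add_distrib]
        exact Finset.sum_congr rfl fun x _ => by rw [h3]; ring

theorem taskStokes : TaskStokes := by
  intro G _ _ e a b c A B
  let da : Fin 4 → Fin 4 → G → ℝ := fun i j x =>
    (a j (x + e i) - a j x) - (a i (x + e j) - a i x)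
  let db : Fin 4 → Fin 4 → G → ℝ := fun i j x =>
    (b j (x + e i) - b j x) - (b i (x + e j) - b i x)
  have hA01 : ∀ x, A 0 1 x = c - da 0 1 x := fun x => by simp [A, da]
  have hA02 : ∀ x, A 0 2 x = - da 0 2 x := fun x => by simp [A, da]
  have hA03 : ∀ x, A 0 3 x = - da 0 3 x := fun x => by simp [A, da]
  have hA12 : ∀ x, A 1 2 x = - da 1 2 x := fun x => by simp [A, da]
  have hA13 : ∀ x, A 1 3 x = - da 1 3 x := fun x => by simp [A, da]
  have hA23 : ∀ x, A 2 3 x = - da 2 3 x := fun x => by simp [A, da]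
  have hB23 : ∀ x, B 2 3 x = c - db 2 3 x := fun x => by simp [B, db]
  have hB13 : ∀ x, B 1 3 x = - db 1 3 x := fun x => by simp [B, db]
  have hB12 : ∀ x, B 1 2 x = - db 1 2 x := fun x => by simp [B, db]
  have hB03 : ∀ x, B 0 3 x = - db 0 3 x := fun x => by simp [B, db]
  have hB02 : ∀ x, B 0 2 x = - db 0 2 x := fun x => by simp [B, db]
  have hB01 : ∀ x, B 0 1 x = - db 0 1 x := fun x => by simp [B, db]
  have s1 : ∑ x, da 0 1 x = 0 := by
    simp only [da, Finset.sum_sub_distrib]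
    rw [shift_sum (a 1), shift_sum (a 0)]
    ring
  have s2 : ∑ x, db 2 3 (x + e 0 + e 1) = 0 := by
    have h0 : ∑ x, db 2 3 x = 0 := by
      simp only [db, Finset.sum_sub_distrib]
      rw [shift_sum (b 3), shift_sum (b 2)]
      ring
    have h1 : ∀ x, db 2 3 (x + e 0 + e 1) = db 2 3 (x + (e 0 + e 1)) := fun x => by rw [add_assoc]
    simp_rw [h1]
    rw [shift_sum (db 2 3), h0]
  have t01 := T_sum (a 0) (a 1) (db 2 3) (e 0) (e 1)
  have t02 := T_sum (a 0) (a 2) (db 1 3) (e 0) (e 2)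
  have t03 := T_sum (a 0) (a 3) (db 1 2) (e 0) (e 3)
  have t12 := T_sum (a 1) (a 2) (db 0 3) (e 1) (e 2)
  have t13 := T_sum (a 1) (a 3) (db 0 2) (e 1) (e 3)
  have t23 := T_sum (a 2) (a 3) (db 0 1) (e 2) (e 3)
  have key : ∑ x, (da 0 1 x * db 2 3 (x + e 0 + e 1) - da 0 2 x * db 1 3 (x + e 0 + e 2) +
      da 0 3 x * db 1 2 (x + e 0 + e 3) + da 1 2 x * db 0 3 (x + e 1 + e 2) -
      da 1 3 x * db 0 2 (x + e 1 + e 3) + da 2 3 x * db 0 1 (x + e 2 + e 3)) = 0 := by
    have e0 : ∑ x, (da 0 1 x * db 2 3 (x + e 0 + e 1) - da 0 2 x * db 1 3 (x + e 0 + e 2) +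
      da 0 3 x * db 1 2 (x + e 0 + e 3) + da 1 2 x * db 0 3 (x + e 1 + e 2) -
      da 1 3 x * db 0 2 (x + e 1 + e 3) + da 2 3 x * db 0 1 (x + e 2 + e 3)) =
      ∑ x, da 0 1 x * db 2 3 (x + e 0 + e 1) - ∑ x, da 0 2 x * db 1 3 (x + e 0 + e 2) +
      ∑ x, da 0 3 x * db 1 2 (x + e 0 + e 3) + ∑ x, da 1 2 x * db 0 3 (x + e 1 + e 2) -
      ∑ x, da 1 3 x * db 0 2 (x + e 1 + e 3) + ∑ x, da 2 3 x * db 0 1 (x + e 2 + e 3) := by
      simp only [Finset.sum_add_distrib, Finset.sum_sub_distrib]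
    rw [e0]
    simp only [da] at t01 t02 t03 t12 t13 t23 ⊢
    rw [t01, t02, t03, t12, t13, t23]
    rw [← Finset.sum_sub_distrib, ← Finset.sum_add_distrib, ← Finset.sum_add_distrib,
      ← Finset.sum_sub_distrib, ← Finset.sum_add_distrib]
    apply Finset.sum_eq_zero
    intro x _
    -- normalise the shifts
    have c10 : x + e 1 + e 0 = x + e 0 + e 1 := add_right_comm _ _ _
    have c20 : x + e 2 + e 0 = x + e 0 + e 2 := add_right_comm _ _ _
    have c30 : x + e 3 + e 0 = x + e 0 + e 3 := add_right_comm _ _ _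
    have c21 : x + e 2 + e 1 = x + e 1 + e 2 := add_right_comm _ _ _
    have c31 : x + e 3 + e 1 = x + e 1 + e 3 := add_right_comm _ _ _
    have c32 : x + e 3 + e 2 = x + e 2 + e 3 := add_right_comm _ _ _
    have d : ∀ (i j : Fin 4) (y : G), y + e i + e j = y + e j + e i := fun i j y =>
      add_right_comm _ _ _
    simp only [db, c10, c20, c30, c21, c31, c32]
    simp only [d 2 1 (x + e 0), d 3 1 (x + e 0), d 3 2 (x + e 0), d 2 0 (x + e 1), d 3 0 (x + e 1),
      d 3 2 (x + e 1), d 1 0 (x + e 2), d 3 0 (x + e 2), d 3 1 (x + e 2), d 1 0 (x + e 3),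
      d 2 0 (x + e 3), d 2 1 (x + e 3), d 1 0 x, d 2 0 x, d 3 0 x, d 2 1 x, d 3 1 x, d 3 2 x]
    ring
  calc ∑ x, (A 0 1 x * B 2 3 (x + e 0 + e 1) - A 0 2 x * B 1 3 (x + e 0 + e 2) +
      A 0 3 x * B 1 2 (x + e 0 + e 3) + A 1 2 x * B 0 3 (x + e 1 + e 2) -
      A 1 3 x * B 0 2 (x + e 1 + e 3) + A 2 3 x * B 0 1 (x + e 2 + e 3))
      = ∑ x, (c ^ 2 - c * da 0 1 x - c * db 2 3 (x + e 0 + e 1) +
        (da 0 1 x * db 2 3 (x + e 0 + e 1) - da 0 2 x * db 1 3 (x + e 0 + e 2) +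
      da 0 3 x * db 1 2 (x + e 0 + e 3) + da 1 2 x * db 0 3 (x + e 1 + e 2) -
      da 1 3 x * db 0 2 (x + e 1 + e 3) + da 2 3 x * db 0 1 (x + e 2 + e 3))) := by
        refine Finset.sum_congr rfl fun x _ => ?_
        rw [hA01, hA02, hA03, hA12, hA13, hA23, hB23, hB13, hB12, hB03, hB02, hB01]
        ring
    _ = Fintype.card G * c ^ 2 := by
        rw [Finset.sum_add_distrib, key, Finset.sum_sub_distrib, Finset.sum_sub_distrib,
          ← Finset.mul_sum, ← Finset.mul_sum, s1, s2, Finset.sum_const, Finset.card_univ,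
          nsmul_eq_mul]
        ring

end Pool.Agent.H672R3.FQ
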